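import Pool.Agent.Q267.CDE.Qx5
import Pool.Agent.Q267.CDE.W7

/-!
# MP_5b0587_nt

The supercongruences modulo `p²` for the three sums with `C(-1/4, k)`, for `p = A² + 3B²`.
-/

namespace Pool.Agent.Results.MP_5b0587_nt.Full

open Finset

/-- `u ≡ v (mod p²)`: `u - v = p² w` for a rational `w` whose denominator is prime to `p`. -/
def Cong (p : ℕ) (u v : ℚ) : Prop := ∃ w : ℚ, w.den.Coprime p ∧ u - v = (p : ℚ) ^ 2 * w

/-- The generalized binomial coefficient `C(a, k)`. -/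
def gb (a : ℚ) (k : ℕ) : ℚ := (∏ j ∈ range k, (a - j)) / k.factorial

/-- `S₁(p)` -/
def S1 (p : ℕ) : ℚ := ∑ k ∈ range p, gb (-1 / 4) k ^ 2 * 4 ^ k

/-- `S₂(p)` -/
def S2 (p : ℕ) : ℚ := ∑ k ∈ range p, gb (-1 / 4) k * gb (-1 / 2) k * (-8) ^ k

/-- `S₃(p)` -/
def S3 (p : ℕ) : ℚ := ∑ k ∈ range p, gb (-1 / 4) k ^ 2 / 4 ^ k

open Pool.Agent.Q267 Pool.Agent.Q267.CDE Pool.Agent.Q267.Seven Q278.PI Pool.Agent.Q267.CDE.Qx
  Pool.Agent.Q261.SC

theorem gb_eq (a : ℚ) (k : ℕ) : gb a k = Qx.gb a k := rfl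

theorem gb_succ (a : ℚ) (k : ℕ) : gb a (k + 1) * ((k : ℚ) + 1) = gb a k * (a - k) := by
  unfold gb
  have h1 : ((k.factorial : ℕ) : ℚ) ≠ 0 := Nat.cast_ne_zero.2 k.factorial_ne_zero
  have h2 : ((k : ℚ) + 1) ≠ 0 := by positivity
  rw [prod_range_succ, Nat.factorial_succ]
  push_cast
  field_simp

theorem gb_half (k : ℕ) : gb (-1 / 2) k * (-8) ^ k = (k.centralBinom : ℚ) * 2 ^ k := by
  induction k with
  | zero => simp [gb]
  | succ k ih =>
    have h1 := gb_succ (-1 / 2) k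
    have h2 := Nat.succ_mul_centralBinom_succ k
    have h2' : (((k + 1) * (k + 1).centralBinom : ℕ) : ℚ) =
      ((2 * (2 * k + 1) * k.centralBinom : ℕ) : ℚ) := by rw [h2]
    push_cast at h2'
    have h3 : ((k : ℚ) + 1) ≠ 0 := by positivity
    apply mul_left_cancel₀ h3
    rw [pow_succ, pow_succ]
    linear_combination ((-8) ^ k * (-8)) * h1 - (2 ^ k * 2) * h2' + (4 * (2 * (k : ℚ) + 1)) * ih

section

variable (p : ℕ) [hp : Fact p.Prime]

theorem cong_of {r s : ℚ} (a b : O p) (ha : (a : ℚ) = r)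
    (hb : (b : ℚ) = s) (h : res2 p a = res2 p b) : Cong p r s := by
  subst ha hb
  obtain ⟨c, hc⟩ := res2_zero p (a - b) (by rw [map_sub, h, sub_self])
  refine ⟨(c : ℚ), ?_, ?_⟩
  · exact (Nat.Coprime.symm ((Nat.Prime.coprime_iff_not_dvd hp.out).2 c.2))
  · have h1 := congrArg (Subtype.val) hc
    push_cast at h1
    exact h1

theorem S1_coe (h3 : 3 < p) : ((∑ k ∈ range p, gO p k ^ 2 * 4 ^ k : O p) : ℚ) = S1 p := by
  unfold S1
  have c4 : ((4 : O p) : ℚ) = 4 := rfl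
  push_cast
  rw [c4]
  refine sum_congr rfl fun k hk => ?_
  rw [gO_coe p (nd4 p h3) k (mem_range.1 hk), gb_eq]

theorem S2_coe (h3 : 3 < p) :
    ((∑ k ∈ range p, gO p k * (k.centralBinom : O p) * 2 ^ k : O p) : ℚ) = S2 p := by
  unfold S2
  have c2 : ((2 : O p) : ℚ) = 2 := rfl
  push_cast
  rw [c2]
  refine sum_congr rfl fun k hk => ?_
  rw [gO_coe p (nd4 p h3) k (mem_range.1 hk), mul_assoc, mul_assoc, gb_half, gb_eq]

theorem S3_coe (h3 : 3 < p) : ((∑ k ∈ range p, gO p k ^ 2 * (invI p 4) ^ k : O p) : ℚ) = S3 p := by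
  unfold S3
  push_cast
  rw [invI_coe p 4 (nd4 p h3)]
  refine sum_congr rfl fun k hk => ?_
  rw [gO_coe p (nd4 p h3) k (mem_range.1 hk), gb_eq, inv_pow, div_eq_mul_inv]
  push_cast
  rfl

omit hp in
theorem nd_mul (hp' : p.Prime) {a b : ℤ} (ha : ¬ (p : ℤ) ∣ a) (hb : ¬ (p : ℤ) ∣ b) :
    ¬ (p : ℤ) ∣ a * b := by
  intro h
  rcases (Nat.prime_iff_prime_int.1 hp').dvd_or_dvd h with h | h
  · exact ha h
  · exact hb h

omit hp in
theorem nd_of (hp' : p.Prime) {x : ℤ} (hx0 : x ≠ 0) (hx : x ^ 2 ≤ p) : ¬ (p : ℤ) ∣ x := by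
  intro h
  have h1 := Int.le_of_dvd (by positivity) ((dvd_abs _ _).2 h)
  have h2 : (p : ℤ) ^ 2 ≤ x ^ 2 := by
    rw [← sq_abs x]
    exact pow_le_pow_left₀ (by positivity) h1 2
  have h3 : (2 : ℤ) ≤ p := by exact_mod_cast hp'.two_le
  nlinarith

/-- `p ≡ 1 (mod 12)`, `x ≡ 1 (mod 4)` -/
theorem core1 (h12 : p % 12 = 1) (x y : ℤ) (hxy : (p : ℤ) = x ^ 2 + 3 * y ^ 2) (hx : x % 4 = 1) :
    Cong p (S1 p) ((-1) ^ ((p - 1) / 4) * (2 * (x : ℚ) - p / (2 * x))) ∧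
    Cong p (S2 p) ((-1) ^ ((p - 1) / 4) * (2 * (x : ℚ) - p / (2 * x))) ∧
    Cong p (S3 p) (2 * (x : ℚ) - p / (2 * x)) := by
  have hp2 := hp.out.two_le
  obtain ⟨t, ht⟩ : ∃ t, p = 12 * t + 1 := ⟨p / 12, by omega⟩
  have h3 : 3 < p := by omega
  have hxd : ¬ (p : ℤ) ∣ x := nd_of p hp.out (by omega) (by nlinarith [sq_nonneg y])
  have h2x : ¬ (p : ℤ) ∣ 2 * x := nd_mul p hp.out (nd2 p h3) hxd
  have hX := res2_invI p (2 * x) h2x
  push_cast at hX
  obtain ⟨w, hw, hD⟩ := A1 p t ht x y hxy hx (res2 p (invI p (2 * x))) hX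
  have v1 := val1_1 p t ht w hw
  have v2 := val2_1 p t ht
  have v3 := val3_1 p t ht w hw
  have c2 : ((2 : O p) : ℚ) = 2 := rfl
  have b1 : (((-1) ^ ((p - 1) / 4) * (2 * (x : O p) - (p : O p) * invI p (2 * x)) : O p) : ℚ) =
      (-1) ^ ((p - 1) / 4) * (2 * (x : ℚ) - p / (2 * x)) := by
    push_cast
    rw [c2, invI_coe p _ h2x]
    push_cast
    rw [div_eq_mul_inv]
  have b3 : ((2 * (x : O p) - (p : O p) * invI p (2 * x) : O p) : ℚ) =
      2 * (x : ℚ) - p / (2 * x) := by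
    push_cast
    rw [c2, invI_coe p _ h2x]
    push_cast
    rw [div_eq_mul_inv]
  refine ⟨cong_of p _ _ (S1_coe p h3) b1 ?_, cong_of p _ _ (S2_coe p h3) b1 ?_,
    cong_of p _ _ (S3_coe p h3) b3 ?_⟩
  · simp only [map_sum, map_mul, map_sub, map_pow, map_neg, map_one, map_natCast, map_intCast,
      map_ofNat]
    rw [v1, hD]
  · simp only [map_sum, map_mul, map_sub, map_pow, map_neg, map_one, map_natCast, map_intCast,
      map_ofNat]
    rw [v2, v1, hD]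
  · simp only [map_sum, map_mul, map_sub, map_pow, map_natCast, map_intCast,
      map_ofNat]
    rw [v3, hD, show (p - 1) / 4 = t + 2 * t by omega, pow_add, pow_mul, neg_one_sq, one_pow,
      mul_one]
    have hs : ((-1 : R p)) ^ t * (-1) ^ t = 1 := by rw [← mul_pow]; norm_num
    linear_combination (2 * (x : R p) - p * res2 p (invI p (2 * x))) * hs

/-- `p ≡ 7 (mod 12)`, `y ≡ 1 (mod 4)` -/
theorem core7 (h12 : p % 12 = 7) (x y : ℤ) (hxy : (p : ℤ) = x ^ 2 + 3 * y ^ 2) (hy : y % 4 = 1) :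
    Cong p (S1 p) ((-1) ^ ((p + 1) / 4) * (6 * (y : ℚ) - p / (2 * y))) ∧
    Cong p (S2 p) ((-1) ^ ((p + 1) / 4) * (6 * (y : ℚ) - p / (2 * y))) ∧
    Cong p (S3 p) (3 * (y : ℚ) - p / (4 * y)) := by
  have hp2 := hp.out.two_le
  obtain ⟨t, ht⟩ : ∃ t, p = 12 * t + 7 := ⟨p / 12, by omega⟩
  have h3 : 3 < p := by omega
  have hyd : ¬ (p : ℤ) ∣ y := nd_of p hp.out (by omega) (by nlinarith [sq_nonneg x, sq_nonneg y])
  have h2y : ¬ (p : ℤ) ∣ 2 * y := nd_mul p hp.out (nd2 p h3) hyd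
  have h4y : ¬ (p : ℤ) ∣ 4 * y := nd_mul p hp.out (nd4 p h3) hyd
  have h3d : ¬ (p : ℤ) ∣ 3 := by
    intro h
    have := Int.le_of_dvd (by norm_num) h
    omega
  have h6y : ¬ (p : ℤ) ∣ 3 * (2 * y) := nd_mul p hp.out h3d h2y
  have hY := res2_invI p (3 * (2 * y)) h6y
  have hY2 := res2_invI p (2 * y) h2y
  have hY4 := res2_invI p (4 * y) h4y
  push_cast at hY hY2 hY4
  set Y := res2 p (invI p (3 * (2 * y)))
  set Y2 := res2 p (invI p (2 * y)) with hY2d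
  set Y4 := res2 p (invI p (4 * y)) with hY4d
  obtain ⟨w, hw, -, -, hD, -⟩ := A7 h12 (6 * t + 3) (by omega) x y hxy hy Y (by linear_combination hY)
  have hD' : D0 p (6 * t + 3) w =
      (-1) ^ ((p - 3) / 4) * (2 * w + 1) * (2 * (y : R p) - p * Y) := hD
  have v1 := val1_7 p t ht w hw
  have v2 := val2_7 p t ht
  have v3 := val3_7 p t ht w hw
  have e2 : Y2 = 3 * Y := by
    linear_combination 3 * Y * hY2 - Y2 * hY
  have e4 : 2 * Y4 = Y2 := by
    linear_combination Y2 * hY4 - 2 * Y4 * hY2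
  have hval : (2 * w + 1) * D0 p (6 * t + 3) w = (-1) ^ ((p + 1) / 4) * (6 * (y : R p) - p * Y2) := by
    rw [hD', e2, show (p + 1) / 4 = (p - 3) / 4 + 1 by omega, pow_succ (-1 : R p)]
    linear_combination (4 * (-1) ^ ((p - 3) / 4) * (2 * (y : R p) - p * Y)) * hw
  have c2 : ((2 : O p) : ℚ) = 2 := rfl
  have c3 : ((3 : O p) : ℚ) = 3 := rfl
  have c6 : ((6 : O p) : ℚ) = 6 := rfl
  have b1 : (((-1) ^ ((p + 1) / 4) * (6 * (y : O p) - (p : O p) * invI p (2 * y)) : O p) : ℚ) =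
      (-1) ^ ((p + 1) / 4) * (6 * (y : ℚ) - p / (2 * y)) := by
    push_cast
    rw [c6, invI_coe p _ h2y]
    push_cast
    rw [div_eq_mul_inv]
  have b3 : ((3 * (y : O p) - (p : O p) * invI p (4 * y) : O p) : ℚ) =
      3 * (y : ℚ) - p / (4 * y) := by
    push_cast
    rw [c3, invI_coe p _ h4y]
    push_cast
    rw [div_eq_mul_inv]
  refine ⟨cong_of p _ _ (S1_coe p h3) b1 ?_, cong_of p _ _ (S2_coe p h3) b1 ?_,
    cong_of p _ _ (S3_coe p h3) b3 ?_⟩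
  · simp only [map_sum, map_mul, map_sub, map_pow, map_neg, map_one, map_natCast, map_intCast,
      map_ofNat]
    rw [v1, hval]
  · simp only [map_sum, map_mul, map_sub, map_pow, map_neg, map_one, map_natCast, map_intCast,
      map_ofNat]
    rw [v2, v1, hval]
  · simp only [map_sum, map_mul, map_sub, map_pow, map_natCast, map_intCast,
      map_ofNat]
    have h2u : IsUnit (2 : R p) := Ext.unit2 (by omega)
    apply h2u.mul_left_cancel
    rw [v3, hval, show (p + 1) / 4 = t + 2 * (t + 1) by omega, pow_add, pow_mul, neg_one_sq,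
      one_pow, mul_one]
    have hs : ((-1 : R p)) ^ t * (-1) ^ t = 1 := by rw [← mul_pow]; norm_num
    linear_combination (6 * (y : R p) - p * Y2) * hs + (p : R p) * e4

end

theorem sgn (z : ℤ) (hz : z % 2 = 1) :
    (z % 4 = 1 ∧ (-1 : ℚ) ^ ((z - 1) / 2) = 1) ∨ ((-z) % 4 = 1 ∧ (-1 : ℚ) ^ ((z - 1) / 2) = -1) := by
  have h : z % 4 = 1 ∨ z % 4 = 3 := by omega
  rcases h with h | h
  · left
    refine ⟨h, ?_⟩
    obtain ⟨c, hc⟩ : ∃ c, (z - 1) / 2 = 2 * c := ⟨(z - 1) / 4, by omega⟩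
    rw [hc, zpow_mul]
    norm_num
  · right
    refine ⟨by omega, ?_⟩
    obtain ⟨c, hc⟩ : ∃ c, (z - 1) / 2 = 2 * c + 1 := ⟨(z - 3) / 4, by omega⟩
    rw [hc, zpow_add₀ (by norm_num), zpow_mul]
    norm_num

/-- **MP_5b0587_nt.** -/
theorem result (p : ℕ) (hp : p.Prime) (hp3 : p % 3 = 1) (A B : ℤ)
    (hAB : (p : ℤ) = A ^ 2 + 3 * B ^ 2) :
    (p % 12 = 1 ∨ p % 12 = 7) ∧
    (p % 12 = 1 →
      Cong p (S1 p) ((-1) ^ (((p : ℤ) - 1) / 4 + (A - 1) / 2) * (2 * (A : ℚ) - p / (2 * A))) ∧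
      Cong p (S2 p) ((-1) ^ (((p : ℤ) - 1) / 4 + (A - 1) / 2) * (2 * (A : ℚ) - p / (2 * A))) ∧
      Cong p (S3 p) ((-1) ^ ((A - 1) / 2) * (2 * (A : ℚ) - p / (2 * A)))) ∧
    (p % 12 = 7 →
      Cong p (S1 p) ((-1) ^ (((p : ℤ) + 1) / 4 + (B - 1) / 2) * (6 * (B : ℚ) - p / (2 * B))) ∧
      Cong p (S2 p) ((-1) ^ (((p : ℤ) + 1) / 4 + (B - 1) / 2) * (6 * (B : ℚ) - p / (2 * B))) ∧
      Cong p (S3 p) ((-1) ^ ((B - 1) / 2) * (3 * (B : ℚ) - p / (4 * B)))) := by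
  have hf := Fact.mk hp
  have hodd : p % 2 = 1 := by
    rcases hp.eq_two_or_odd with h | h
    · omega
    · exact h
  have sq4 : ∀ z : ℤ, z % 2 = 0 → z ^ 2 % 4 = 0 := by
    intro z hz
    obtain ⟨c, hc⟩ : ∃ c, z = 2 * c := ⟨z / 2, by omega⟩
    rw [hc, show (2 * c) ^ 2 = 4 * c ^ 2 by ring]
    omega
  have sq1 : ∀ z : ℤ, z % 2 = 1 → z ^ 2 % 4 = 1 := by
    intro z hz
    obtain ⟨c, hc⟩ : ∃ c, z = 2 * c + 1 := ⟨z / 2, by omega⟩
    rw [hc, show (2 * c + 1) ^ 2 = 4 * (c ^ 2 + c) + 1 by ring]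
    omega
  refine ⟨by omega, ?_, ?_⟩
  · intro h12
    have hA : A % 2 = 1 := by
      rcases Int.emod_two_eq_zero_or_one A with h | h
      · exfalso
        have h1 := sq4 A h
        rcases Int.emod_two_eq_zero_or_one B with h' | h'
        · have h2 := sq4 B h'
          omega
        · have h2 := sq1 B h'
          omega
      · exact h
    have hsp : ((-1 : ℚ)) ^ (((p : ℤ) - 1) / 4 + (A - 1) / 2) =
        (-1) ^ ((p - 1) / 4) * (-1 : ℚ) ^ ((A - 1) / 2) := by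
      rw [zpow_add₀ (by norm_num), show ((p : ℤ) - 1) / 4 = (((p - 1) / 4 : ℕ) : ℤ) by omega,
        zpow_natCast]
    rw [hsp]
    rcases sgn A hA with ⟨h4, hs⟩ | ⟨h4, hs⟩
    · rw [hs, mul_one, one_mul]
      exact core1 p h12 A B hAB h4
    · rw [hs]
      have h := core1 p h12 (-A) B (by rw [hAB]; ring) h4
      have e : (2 * ((-A : ℤ) : ℚ) - p / (2 * ((-A : ℤ) : ℚ))) = -(2 * (A : ℚ) - p / (2 * A)) := by
        push_cast
        rw [show (2 * -(A : ℚ)) = -(2 * A) by ring, div_neg]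
        ring
      rw [e] at h
      have e1 : (-1 : ℚ) ^ ((p - 1) / 4) * -1 * (2 * (A : ℚ) - p / (2 * A)) =
          (-1) ^ ((p - 1) / 4) * -(2 * (A : ℚ) - p / (2 * A)) := by ring
      have e2 : (-1 : ℚ) * (2 * (A : ℚ) - p / (2 * A)) = -(2 * (A : ℚ) - p / (2 * A)) := by ring
      rw [e1, e2]
      exact h
  · intro h12
    have hB : B % 2 = 1 := by
      rcases Int.emod_two_eq_zero_or_one B with h | h
      · exfalso
        have h1 := sq4 B h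
        rcases Int.emod_two_eq_zero_or_one A with h' | h'
        · have h2 := sq4 A h'
          omega
        · have h2 := sq1 A h'
          omega
      · exact h
    have hsp : ((-1 : ℚ)) ^ (((p : ℤ) + 1) / 4 + (B - 1) / 2) =
        (-1) ^ ((p + 1) / 4) * (-1 : ℚ) ^ ((B - 1) / 2) := by
      rw [zpow_add₀ (by norm_num), show ((p : ℤ) + 1) / 4 = (((p + 1) / 4 : ℕ) : ℤ) by omega,
        zpow_natCast]
    rw [hsp]
    rcases sgn B hB with ⟨h4, hs⟩ | ⟨h4, hs⟩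
    · rw [hs, mul_one, one_mul]
      exact core7 p h12 A B hAB h4
    · rw [hs]
      have h := core7 p h12 A (-B) (by rw [hAB]; ring) h4
      have e : (6 * ((-B : ℤ) : ℚ) - p / (2 * ((-B : ℤ) : ℚ))) = -(6 * (B : ℚ) - p / (2 * B)) := by
        push_cast
        rw [show (2 * -(B : ℚ)) = -(2 * B) by ring, div_neg]
        ring
      have e' : (3 * ((-B : ℤ) : ℚ) - p / (4 * ((-B : ℤ) : ℚ))) = -(3 * (B : ℚ) - p / (4 * B)) := by
        push_cast
        rw [show (4 * -(B : ℚ)) = -(4 * B) by ring, div_neg]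
        ring
      rw [e, e'] at h
      have e1 : (-1 : ℚ) ^ ((p + 1) / 4) * -1 * (6 * (B : ℚ) - p / (2 * B)) =
          (-1) ^ ((p + 1) / 4) * -(6 * (B : ℚ) - p / (2 * B)) := by ring
      have e2 : (-1 : ℚ) * (3 * (B : ℚ) - p / (4 * B)) = -(3 * (B : ℚ) - p / (4 * B)) := by ring
      rw [e1, e2]
      exact h

end Pool.Agent.Results.MP_5b0587_nt.Full
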